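import Mathlib
import Pool.Agent.Q66.WC4
import Pool.Agent.Q66.WC5

/-!
# Weakly supercyclic operators which commute with a compact operator of dense range

Real or complex scalars. The operators are weighted bilateral shifts on `c₀`: the first one is a
compact weighted shift on `c₀(ℤ)` with weights `w (1 - n) = w n` which are constant on huge blocks,
the second one is a direct sum of weighted bilateral shifts on `c₀(ℤ × ℕ)` and commutes with a
weighted backward shift in the second variable.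
-/

open scoped ZeroAtInfty

namespace Pool.Agent.Results.MP_32446a_an.WeakNotNorm

section defs

variable (𝕜 : Type) [RCLike 𝕜] {B : Type} [NormedAddCommGroup B] [NormedSpace 𝕜 B]

/-- The orbit `{T ^ n x : n ≥ 0}`. -/
def orbit (T : B →L[𝕜] B) (x : B) : Set B := {z | ∃ n : ℕ, z = (T ^ n) x}

/-- The projective orbit `{λ T ^ n x : λ ∈ 𝕜, n ≥ 0}`. -/
def projOrbit (T : B →L[𝕜] B) (x : B) : Set B := {z | ∃ (c : 𝕜) (n : ℕ), z = c • (T ^ n) x}

/-- `T` is supercyclic. -/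
def IsSupercyclic (T : B →L[𝕜] B) : Prop := ∃ x : B, Dense (projOrbit 𝕜 T x)

/-- `T` is hypercyclic. -/
def IsHypercyclic (T : B →L[𝕜] B) : Prop := ∃ x : B, Dense (orbit 𝕜 T x)

/-- `T` is weakly supercyclic: some projective orbit is dense in the weak topology. -/
def IsWeaklySupercyclic (T : B →L[𝕜] B) : Prop :=
  ∃ x : B, Dense (toWeakSpace 𝕜 B '' projOrbit 𝕜 T x)

/-- `T` is weakly hypercyclic: some orbit is dense in the weak topology. -/
def IsWeaklyHypercyclic (T : B →L[𝕜] B) : Prop :=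
  ∃ x : B, Dense (toWeakSpace 𝕜 B '' orbit 𝕜 T x)

/-- The hypothesis (H): `T` commutes with a compact operator of dense range. -/
def HypH (T : B →L[𝕜] B) : Prop :=
  ∃ S : B →L[𝕜] B, IsCompactOperator S ∧ DenseRange S ∧ T * S = S * T

end defs

/-- For real and for complex scalars:

1. there is a compact operator with dense range on `c₀(ℤ)` (written `c₀(ℤ × Unit)`), so an operator
   with (H), which is weakly supercyclic but not supercyclic;
2. there is an operator on `c₀(ℤ × ℕ)` with (H) which is weakly hypercyclic (so weakly supercyclic)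
   but not supercyclic (so not hypercyclic). -/
theorem result (𝕜 : Type) [RCLike 𝕜] :
    (∃ T : C₀(ℤ × Unit, 𝕜) →L[𝕜] C₀(ℤ × Unit, 𝕜),
      IsCompactOperator T ∧ DenseRange T ∧ HypH 𝕜 T ∧
      IsWeaklySupercyclic 𝕜 T ∧ ¬ IsSupercyclic 𝕜 T) ∧
    (∃ T : C₀(ℤ × ℕ, 𝕜) →L[𝕜] C₀(ℤ × ℕ, 𝕜),
      HypH 𝕜 T ∧ IsWeaklyHypercyclic 𝕜 T ∧ IsWeaklySupercyclic 𝕜 T ∧
      ¬ IsSupercyclic 𝕜 T ∧ ¬ IsHypercyclic 𝕜 T) := by
  constructor
  · obtain ⟨T, hc, hd, hw, hn⟩ := Q66WC.exampleA 𝕜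
    exact ⟨T, hc, hd, ⟨T, hc, hd, rfl⟩, hw, fun ⟨x, hx⟩ => hn x hx⟩
  · obtain ⟨T, S, hc, hd, hTS, ⟨x, hx⟩, hn⟩ := Q66WC.exampleB 𝕜
    have e1 : orbit 𝕜 T x = Set.range fun n : ℕ => (T ^ n) x := by
      ext z
      constructor
      · rintro ⟨n, rfl⟩; exact ⟨n, rfl⟩
      · rintro ⟨n, rfl⟩; exact ⟨n, rfl⟩
    have hsub : ∀ u : C₀(ℤ × ℕ, 𝕜), orbit 𝕜 T u ⊆ projOrbit 𝕜 T u := by
      rintro u z ⟨n, rfl⟩
      exact ⟨1, n, (one_smul _ _).symm⟩
    have hw : Dense (toWeakSpace 𝕜 (C₀(ℤ × ℕ, 𝕜)) '' orbit 𝕜 T x) := by rw [e1]; exact hx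
    refine ⟨T, ⟨S, hc, hd, hTS⟩, ⟨x, hw⟩, ⟨x, hw.mono (Set.image_mono (hsub x))⟩,
      fun ⟨u, hu⟩ => hn u hu, fun ⟨u, hu⟩ => hn u (hu.mono (hsub u))⟩

end Pool.Agent.Results.MP_32446a_an.WeakNotNorm
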